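import Mathlib
import Pool.Agent.H66.W.TopH
import Pool.Agent.H53.ZF.Full

set_option autoImplicit false

/-! # The final statement of Q1 (MP_fe58d8_pr) from the outputs of route W (W-G) -/

namespace Pool.Agent.H53.W

open Pool.Agent.Q1 Pool.Agent.Q1.M4 Pool.Agent.Q1.M6c

/-- The final statement from the holomorphy of the limits (output of W-G). -/
theorem full_of_holDob (hH : HolDob) : Pool.Agent.H53.ZF.Full :=
  Pool.Agent.H53.ZF.full_of_q1sle (Pool.Agent.H76.M7.q1sle_of_holDob hH)

/-- The holomorphy of the limits from the local translation invariance (output of W-G). -/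
theorem holDob_of_tiDob (hT : Pool.Agent.H66.W.TIDob) : HolDob :=
  Pool.Agent.H66.W.HolDob_of_TI ap_planeK (fun _ hZ _ _ _ _ _ _ => planeK_freeze hZ _ _)
    planeK_dob hT

/-- The final statement from the local translation invariance (output of W-G). -/
theorem full_of_tiDob (hT : Pool.Agent.H66.W.TIDob) : Pool.Agent.H53.ZF.Full :=
  full_of_holDob (holDob_of_tiDob hT)

end Pool.Agent.H53.W
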