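import Mathlib
import Pool.Agent.H5.C3.Val
import Pool.Agent.H29.M7.Exp

set_option autoImplicit false
open Complex Metric Set Topology Filter

/-! # W-H: the explicit form of the one-point function from Cardy's formula, statements -/

namespace Pool.Agent.H53.W

open Pool.Agent.Q1.M4
open Pool.Agent.Q1.M5 (hh lv FlatV App StPz)
open Pool.Agent.H29.M7 (Chart BV IsG StExp)
open Pool.Agent.H19.RH (Cht lam)
open Pool.Agent.H13.Q1.Four (cardy)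

/-- (H3) The cross ratio in terms of a chart with pole at the vertex `0`. -/
def StChLam : Prop := ∀ (P : PType) (x y : ℤ → ℝ) (φ ψ : ℂ → ℂ) (W : ℝ), Cht P x y φ →
  Chart P x y ψ W → ∀ n1 n2 : ℕ, 0 < n1 → n1 < n2 → n2 < P.m → ∀ r1 r2 : ℝ,
  Tendsto ψ (𝓝[Om P.Q x y] (pt x y (P.vert n1))) (𝓝 (r1 : ℂ)) →
  Tendsto ψ (𝓝[Om P.Q x y] (pt x y (P.vert n2))) (𝓝 (r2 : ℂ)) →
  1 - lam P x y n1 n2 P.m φ = (r2 - r1) / (W - r1)

/-- (H4) Cardy's function near `0`. -/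
def StCardy : Prop := ∃ κ : ℝ, 0 < κ ∧
  Tendsto (fun l => cardy l / l ^ (1 / 3 : ℝ)) (𝓝[>] 0) (𝓝 κ)

/-- (H5) Symmetric increments of the boundary values at a flat vertex. -/
def StInc : Prop := ∀ (P : PType) (x y : ℤ → ℝ) (ψ : ℂ → ℂ) (W : ℝ), StrictMono x → StrictMono y →
  Chart P x y ψ W → ∀ n, FlatV P n → ∀ r D : ℝ, BV P x y ψ n r D →
  ∃ ρ > 0, ∃ g : ℝ → ℝ, (∀ s : ℝ, |s| < ρ → Tendsto ψ
    (𝓝[Om P.Q x y] (pt x y (P.vert n) + s * udir (P.side n).2)) (𝓝 (g s : ℂ))) ∧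
    Tendsto (fun s => (g s - g (-s)) / (W - g (-s)) / s) (𝓝[>] 0) (𝓝 (2 * D / (W - r)))

end Pool.Agent.H53.W
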