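import Mathlib
import Pool.Agent.H52.Q1.RatioLim

set_option autoImplicit false
open Finset

/-! # W-H, H1: ratio limit for the one-point function and the interval function

The contraction argument of `H52/Q1/Ratio` for two source sets `A`, `B` in the half box of radius
`j`. -/

namespace Pool.Agent.H53.W

open Pool.Agent.H75.Perc Pool.Agent.H99.NC Pool.Agent.H47.NC Pool.Agent.H47.NC.ArchAux
open Pool.Agent.H49.Q1 Pool.Agent.H52.Q1

/-- Some vertex of `A` is connected to the target `J`. -/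
def CS (W : Finset (ℤ × ℤ)) (J A : ℤ × ℤ → Prop) (ω : Finset (ℤ × ℤ)) : Prop :=
  ∃ x, A x ∧ CJ W J x ω

lemma CS_inc (W : Finset (ℤ × ℤ)) (J A : ℤ × ℤ → Prop) : Inc (CS W J A) := by
  rintro ω ω' h ⟨x, hx, hc⟩
  exact ⟨x, hx, CJ_inc W J x ω ω' h hc⟩

lemma CS_single (W : Finset (ℤ × ℤ)) (J : ℤ × ℤ → Prop) (x : ℤ × ℤ) (ω : Finset (ℤ × ℤ)) :
    CS W J (fun v => v = x) ω ↔ CJ W J x ω := by
  constructor
  · rintro ⟨y, rfl, h⟩
    exact h
  · exact fun h => ⟨x, rfl, h⟩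

/-- `A` is contained in the half box of radius `j` -/
def Src (j : ℤ) (A : ℤ × ℤ → Prop) : Prop := ∀ x, A x → inB (-j) 0 (-j) j x

lemma Src.mono {j j' : ℤ} (h : j ≤ j') {A : ℤ × ℤ → Prop} (hA : Src j A) : Src j' A := by
  intro x hx
  have := hA x hx
  unfold inB at this ⊢
  omega

/-- the probability that `A` is connected to the ring by labels of `HH j` -/
noncomputable def FS (j : ℤ) (A : ℤ × ℤ → Prop) (ξ : Finset (ℤ × ℤ)) : ℝ :=
  Pr (HH j) (CS ξ (fun v => v = rv j ξ) A)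

/-- the part with a ring -/
lemma ring_partS {j : ℤ} (hj : 1 ≤ j) {E W : Finset (ℤ × ℤ)} {J : ℤ × ℤ → Prop}
    (hF : Far (4 * j) E W J) {A : ℤ × ℤ → Prop} (hA' : Src j A) :
    Pr E (fun ω => CS W J A ω ∧ Circ j ω) =
      Ex (fun _ : ℤ × ℤ => (1 : ℝ) / 2) (AA j)
        (fun ξ => ind (Circ j ξ) * (FS j A ξ * ww j E W J ξ)) := by
  have hA : AA j ⊆ E := sdiff_subset.trans hF.flat
  have hj4 : HH j ⊆ HH (4 * j) := HH_mono (by omega)
  rw [Pr_eq_Eh, Ex_split _ hA]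
  refine Ex_congr fun ξ hξ => ?_
  by_cases hC : Circ j ξ
  · rw [ind_true hC, one_mul]
    have h1 : HH j ⊆ E \ AA j := by
      intro e he
      rw [mem_sdiff, AA, mem_sdiff]
      exact ⟨hF.flat (hj4 he), fun h => h.2 he⟩
    have h2 : E \ HH (4 * j) ⊆ E \ AA j := sdiff_subset_sdiff (subset_refl _) sdiff_subset
    have hd : Disjoint (HH j) (E \ HH (4 * j)) := by
      rw [disjoint_left]
      intro e he h
      exact (mem_sdiff.1 h).2 (hj4 he)
    have h3 := Pr_indep h1 h2 hd (CS ξ (fun v => v = rv j ξ) A) (CJ (W ∪ ξ) J (rv j ξ))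
    unfold FS ww
    rw [← h3, Pr_eq_Eh]
    refine Ex_congr fun o ho => ?_
    apply ind_congr
    have hω : ξ ∪ o ⊆ E := union_subset (hξ.trans hA) (ho.trans sdiff_subset)
    have hoA : ∀ e ∈ o, e ∉ AA j := fun e he => (mem_sdiff.1 (ho he)).2
    have e1 : (ξ ∪ o) ∩ AA j = ξ := by
      ext e
      rw [mem_inter, mem_union]
      constructor
      · rintro ⟨h4 | h4, h5⟩
        · exact h4
        · exact absurd h5 (hoA e h4)
      · intro h4
        exact ⟨Or.inl h4, hξ h4⟩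
    have e2 : (ξ ∪ o) ∩ HH j = o ∩ HH j := by
      ext e
      rw [mem_inter, mem_union, mem_inter]
      constructor
      · rintro ⟨h4 | h4, h5⟩
        · have := hξ h4
          rw [AA, mem_sdiff] at this
          exact absurd h5 this.2
        · exact ⟨h4, h5⟩
      · rintro ⟨h4, h5⟩
        exact ⟨Or.inr h4, h5⟩
    have e3 : (ξ ∪ o) \ HH (4 * j) = o ∩ (E \ HH (4 * j)) := by
      ext e
      rw [mem_sdiff, mem_union, mem_inter, mem_sdiff]
      constructor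
      · rintro ⟨h4 | h4, h5⟩
        · have := hξ h4
          rw [AA, mem_sdiff] at this
          exact absurd this.1 h5
        · exact ⟨h4, (mem_sdiff.1 (ho h4)).1, h5⟩
      · rintro ⟨h4, h5, h6⟩
        exact ⟨Or.inr h4, h6⟩
    have hC' : Circ j ((ξ ∪ o) ∩ AA j) := by rwa [e1]
    have h5 : ∀ x, A x → (CJ W J x (ξ ∪ o) ↔ CJ ξ (fun v => v = rv j ξ) x (o ∩ HH j) ∧
        CJ (W ∪ ξ) J (rv j ξ) (o ∩ (E \ HH (4 * j)))) := by
      intro x hx
      have := decouple hj hF hω hC' (hA' x hx)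
      rwa [e1, e2, e3] at this
    constructor
    · rintro ⟨⟨x, hx, h6⟩, -⟩
      obtain ⟨h7, h8⟩ := (h5 x hx).1 h6
      exact ⟨⟨x, hx, h7⟩, h8⟩
    · rintro ⟨⟨x, hx, h7⟩, h8⟩
      exact ⟨⟨x, hx, (h5 x hx).2 ⟨h7, h8⟩⟩, Circ_inc j _ _ subset_union_left hC⟩
  · rw [ind_false hC, zero_mul]
    rw [← Ex_const (fun _ => (1 : ℝ) / 2) (E \ AA j) (0 : ℝ)]
    refine Ex_congr fun o ho => ?_
    apply ind_false
    rintro ⟨-, h1⟩
    apply hC
    rw [← Circ_iff hj] at h1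
    refine Circ_inc j _ _ ?_ h1
    intro e he
    rw [mem_inter, mem_union] at he
    rcases he with ⟨h4 | h4, h5⟩
    · exact h4
    · exact absurd h5 (mem_sdiff.1 (ho h4)).2

/-- the part without a ring -/
lemma noring_partS {j : ℤ} (hj : 1 ≤ j) {E W : Finset (ℤ × ℤ)} {J : ℤ × ℤ → Prop}
    (hF : Far (4 * j) E W J) {A : ℤ × ℤ → Prop} :
    Pr E (fun ω => CS W J A ω ∧ ¬ Circ j ω) =
      Ex (fun _ : ℤ × ℤ => (1 : ℝ) / 2) (E \ HH j)
        (fun ζ => ind (¬ Circ j ζ) * Pr (HH j) (CS (W ∪ ζ) J A)) := by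
  have hj4 : HH j ⊆ HH (4 * j) := HH_mono (by omega)
  have hjE : HH j ⊆ E := hj4.trans hF.flat
  have e0 : E \ (E \ HH j) = HH j := Finset.sdiff_sdiff_eq_self hjE
  rw [Pr_eq_Eh, Ex_split _ (sdiff_subset (s := E) (t := HH j)), e0]
  refine Ex_congr fun ζ hζ => ?_
  rw [Pr_eq_Eh, ← Ex_smul]
  refine Ex_congr fun ι hι => ?_
  rw [← ind_and]
  apply ind_congr
  have h1 : CS W J A (ζ ∪ ι) ↔ CS (W ∪ ζ) J A ι := by
    unfold CS CJ
    have : ζ ∪ ι ∪ W = ι ∪ (W ∪ ζ) := by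
      ext e
      simp only [mem_union]
      tauto
    rw [this]
  have h2 : Circ j (ζ ∪ ι) ↔ Circ j ζ := by
    constructor
    · intro h
      refine Circ_local hj (i := j) (by omega) ?_ h
      intro e he
      rw [mem_inter, mem_union, mem_sdiff] at he
      rcases he with ⟨h3 | h3, -, h5⟩
      · exact h3
      · exact absurd (hι h3) h5
    · exact fun h => Circ_inc j _ _ subset_union_left h
  rw [h1, h2]
  tauto

/-- Two-sided bound of the ratio of the functions of two source sets in all environments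
which are flat up to the radius `k`. -/
def BdS (k : ℤ) (A B : ℤ × ℤ → Prop) (m M : ℝ) : Prop :=
  ∀ (E W : Finset (ℤ × ℤ)) (J : ℤ × ℤ → Prop), Far k E W J →
    m * Pr E (CS W J B) ≤ Pr E (CS W J A) ∧ Pr E (CS W J A) ≤ M * Pr E (CS W J B)

lemma BdS.mono {k k' : ℤ} (h : k ≤ k') {A B : ℤ × ℤ → Prop} {m M : ℝ} (hB : BdS k A B m M) :
    BdS k' A B m M := fun E W J hF => hB E W J (hF.mono h)

/-- **One step of the contraction.** -/
theorem BdS_step : ∃ θ : ℝ, 0 < θ ∧ θ < 1 ∧ ∀ (j : ℕ), 1 ≤ j → ∀ A B : ℤ × ℤ → Prop,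
    Src j A → Src j B → ∀ m M : ℝ, m ≤ M → BdS j A B m M →
    ∃ m' M' : ℝ, m ≤ m' ∧ M' ≤ M ∧ m' ≤ M' ∧ M' - m' ≤ (1 - θ) * (M - m) ∧
      BdS (64 * j) A B m' M' := by
  obtain ⟨c, hc, hc1, hLL⟩ := LL_compare
  set θ : ℝ := 1 / 2 ^ 77 * c * (1 / 2 ^ 77) with hθ
  have hθ0 : 0 < θ := by positivity
  have hθ1 : θ < 1 := by
    rw [hθ]
    have : (1 : ℝ) / 2 ^ 77 * c * (1 / 2 ^ 77) ≤ 1 / 2 ^ 77 * 1 * (1 / 2 ^ 77) := by
      gcongr
    refine lt_of_le_of_lt this (by norm_num)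
  refine ⟨θ, hθ0, hθ1, ?_⟩
  intro j hj x y hx hy m M hmM hB
  have hjz : (1 : ℤ) ≤ j := by exact_mod_cast hj
  -- the fixed quantities
  set U := Ex (fun _ : ℤ × ℤ => (1 : ℝ) / 2) (AA j) (fun ξ => ind (Circ j ξ) * (FS j x ξ * vv j ξ)) with hU
  set V := Ex (fun _ : ℤ × ℤ => (1 : ℝ) / 2) (AA j) (fun ξ => ind (Circ j ξ) * (FS j y ξ * vv j ξ)) with hV
  have hFF : ∀ ξ, ξ ⊆ AA j → Circ j ξ → m * FS j y ξ ≤ FS j x ξ ∧ FS j x ξ ≤ M * FS j y ξ :=
    fun ξ hξ hC => hB (HH j) ξ _ (far_ring hjz hξ hC)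
  have hvv : ∀ ξ, 0 ≤ vv j ξ := fun ξ => Pr_nonneg _ _
  have hFy : ∀ ξ, 0 ≤ FS j y ξ := fun ξ => Pr_nonneg _ _
  have hFx : ∀ ξ, 0 ≤ FS j x ξ := fun ξ => Pr_nonneg _ _
  have gen : ∀ (s : Finset (ℤ × ℤ) → ℝ), (∀ ξ, ξ ⊆ AA j → Circ j ξ → 0 ≤ s ξ) →
      m * Ex (fun _ : ℤ × ℤ => (1 : ℝ) / 2) (AA j) (fun ξ => ind (Circ j ξ) * (FS j y ξ * s ξ)) ≤
        Ex (fun _ : ℤ × ℤ => (1 : ℝ) / 2) (AA j) (fun ξ => ind (Circ j ξ) * (FS j x ξ * s ξ)) ∧
      Ex (fun _ : ℤ × ℤ => (1 : ℝ) / 2) (AA j) (fun ξ => ind (Circ j ξ) * (FS j x ξ * s ξ)) ≤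
        M * Ex (fun _ : ℤ × ℤ => (1 : ℝ) / 2) (AA j) (fun ξ => ind (Circ j ξ) * (FS j y ξ * s ξ)) := by
    intro s hs
    constructor
    · rw [← Ex_smul]
      refine Ex_mono Pb_half fun ξ hξ => ?_
      by_cases hC : Circ j ξ
      · rw [ind_true hC, one_mul, one_mul, ← mul_assoc]
        exact mul_le_mul_of_nonneg_right (hFF ξ hξ hC).1 (hs ξ hξ hC)
      · rw [ind_false hC]; simp
    · rw [← Ex_smul]
      refine Ex_mono Pb_half fun ξ hξ => ?_
      by_cases hC : Circ j ξ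
      · rw [ind_true hC, one_mul, one_mul, ← mul_assoc]
        exact mul_le_mul_of_nonneg_right (hFF ξ hξ hC).2 (hs ξ hξ hC)
      · rw [ind_false hC]; simp
  have hUV := gen (fun ξ => vv j ξ) (fun ξ _ _ => hvv ξ)
  rw [← hU, ← hV] at hUV
  have hV0 : 0 ≤ V := by
    rw [hV]
    refine Ex_nonneg Pb_half fun ξ _ => mul_nonneg (ind_nonneg _) (mul_nonneg (hFy ξ) (hvv ξ))
  -- the ratio
  obtain ⟨q, hq1, hq2, hq3⟩ : ∃ q : ℝ, m ≤ q ∧ q ≤ M ∧ U = q * V := by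
    by_cases hV1 : V = 0
    · refine ⟨m, le_rfl, hmM, ?_⟩
      rw [hV1] at hUV ⊢
      simp only [mul_zero] at hUV ⊢
      exact le_antisymm hUV.2 hUV.1
    · have hVp : 0 < V := lt_of_le_of_ne hV0 (Ne.symm hV1)
      refine ⟨U / V, ?_, ?_, by field_simp⟩
      · rw [le_div_iff₀ hVp]; exact hUV.1
      · rw [div_le_iff₀ hVp]; exact hUV.2
  refine ⟨m + θ * (q - m), M - θ * (M - q), ?_, ?_, ?_, ?_, ?_⟩
  · nlinarith
  · nlinarith
  · nlinarith
  · apply le_of_eq; ring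
  intro E W J hF
  have hF4 : Far (4 * j) E W J := hF.mono (by omega)
  have hF16 : Far (16 * j) E W J := hF.mono (by omega)
  set L := LL (16 * j) E W J with hL
  have hL0 : 0 ≤ L := Pr_nonneg _ _
  have hL4 : c * L ≤ LL (4 * j) E W J := hLL hj hF
  have hwU : ∀ ξ, ξ ⊆ AA j → Circ j ξ → ww j E W J ξ ≤ vv j ξ * L :=
    fun ξ hξ hC => ww_upper hjz hF16 hξ hC
  have hwL : ∀ ξ, ξ ⊆ AA j → Circ j ξ → 1 / 2 ^ 77 * c * L * vv j ξ ≤ ww j E W J ξ := by
    intro ξ hξ hC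
    refine le_trans ?_ (ww_lower hj hF16 hξ hC)
    have : vv j ξ * (c * L) ≤ vv j ξ * LL (4 * j) E W J := mul_le_mul_of_nonneg_left hL4 (hvv ξ)
    calc 1 / 2 ^ 77 * c * L * vv j ξ = 1 / 2 ^ 77 * (vv j ξ * (c * L)) := by ring
      _ ≤ _ := mul_le_mul_of_nonneg_left this (by positivity)
  -- decomposition
  set ax := Pr E (fun ω => CS W J x ω ∧ Circ j ω) with hax
  set ay := Pr E (fun ω => CS W J y ω ∧ Circ j ω) with hay
  set nx := Pr E (fun ω => CS W J x ω ∧ ¬ Circ j ω) with hnx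
  set ny := Pr E (fun ω => CS W J y ω ∧ ¬ Circ j ω) with hny
  have dx : Pr E (CS W J x) = ax + nx := Pr_add_not _ _
  have dy : Pr E (CS W J y) = ay + ny := Pr_add_not _ _
  have ex := ring_partS hjz hF4 hx
  have ey := ring_partS hjz hF4 hy
  rw [← hax] at ex
  rw [← hay] at ey
  have fx := noring_partS hjz hF4 (A := x)
  have fy := noring_partS hjz hF4 (A := y)
  rw [← hnx] at fx
  rw [← hny] at fy
  have hn : m * ny ≤ nx ∧ nx ≤ M * ny := by
    rw [fx, fy]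
    constructor
    · rw [← Ex_smul]
      refine Ex_mono Pb_half fun ζ hζ => ?_
      have := (hB (HH j) (W ∪ ζ) J (far_out hjz hF4 hζ)).1
      calc m * (ind (¬ Circ j ζ) * Pr (HH j) (CS (W ∪ ζ) J y))
          = ind (¬ Circ j ζ) * (m * Pr (HH j) (CS (W ∪ ζ) J y)) := by ring
        _ ≤ _ := mul_le_mul_of_nonneg_left this (ind_nonneg _)
    · rw [← Ex_smul]
      refine Ex_mono Pb_half fun ζ hζ => ?_
      have := (hB (HH j) (W ∪ ζ) J (far_out hjz hF4 hζ)).2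
      calc ind (¬ Circ j ζ) * Pr (HH j) (CS (W ∪ ζ) J x)
          ≤ ind (¬ Circ j ζ) * (M * Pr (HH j) (CS (W ∪ ζ) J y)) :=
            mul_le_mul_of_nonneg_left this (ind_nonneg _)
        _ = _ := by ring
  -- the ring part
  set κ : ℝ := 1 / 2 ^ 77 * c * L with hκ
  have hκ0 : 0 ≤ κ := by positivity
  have sub : ∀ z : ℤ × ℤ → Prop, Ex (fun _ : ℤ × ℤ => (1 : ℝ) / 2) (AA j) (fun ξ => ind (Circ j ξ) * (FS j z ξ * (ww j E W J ξ - κ * vv j ξ))) =
      Ex (fun _ : ℤ × ℤ => (1 : ℝ) / 2) (AA j) (fun ξ => ind (Circ j ξ) * (FS j z ξ * ww j E W J ξ)) -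
        κ * Ex (fun _ : ℤ × ℤ => (1 : ℝ) / 2) (AA j) (fun ξ => ind (Circ j ξ) * (FS j z ξ * vv j ξ)) := by
    intro z
    rw [← Ex_smul, ← Ex_sub]
    refine Ex_congr fun ξ _ => ?_
    ring
  have hg := gen (fun ξ => ww j E W J ξ - κ * vv j ξ) (fun ξ hξ hC => by
    have := hwL ξ hξ hC
    linarith)
  rw [sub, sub, ← ex, ← ey, ← hU, ← hV] at hg
  -- the weight of the common component
  have hay1 : ay ≤ L * V := by
    rw [ey, hV, ← Ex_smul]
    refine Ex_mono Pb_half fun ξ hξ => ?_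
    by_cases hC : Circ j ξ
    · rw [ind_true hC, one_mul, one_mul]
      have := mul_le_mul_of_nonneg_left (hwU ξ hξ hC) (hFy ξ)
      linarith
    · rw [ind_false hC]; simp
  have hay2 : 1 / 2 ^ 77 * Pr E (CS W J y) ≤ ay := by
    have h1 := Pr_harris E (Circ_inc j) (CS_inc W J y)
    have h2 : 1 / 2 ^ 77 ≤ Pr E (Circ j) := Pr_Circ' hj hF4.flat
    have h3 : Pr E (fun ω => Circ j ω ∧ CS W J y ω) = ay :=
      Pr_congr fun ω _ => and_comm
    rw [h3] at h1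
    exact (mul_le_mul_of_nonneg_right h2 (Pr_nonneg _ _)).trans h1
  have hκV : θ * Pr E (CS W J y) ≤ κ * V := by
    have h1 : κ * V = 1 / 2 ^ 77 * c * (L * V) := by rw [hκ]; ring
    rw [h1, hθ]
    calc 1 / 2 ^ 77 * c * (1 / 2 ^ 77) * Pr E (CS W J y)
        = 1 / 2 ^ 77 * c * (1 / 2 ^ 77 * Pr E (CS W J y)) := by ring
      _ ≤ 1 / 2 ^ 77 * c * (L * V) := by
        refine mul_le_mul_of_nonneg_left (hay2.trans hay1) (by positivity)
  rw [hq3] at hg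
  rw [dx]
  rw [dy] at hκV ⊢
  obtain ⟨g1, g2⟩ := hg
  obtain ⟨n1, n2⟩ := hn
  clear_value U V L κ ax ay nx ny θ
  constructor
  · -- lower bound
    have h1 : θ * (ay + ny) * (q - m) ≤ κ * V * (q - m) :=
      mul_le_mul_of_nonneg_right hκV (by linarith)
    have e1 : (m + θ * (q - m)) * (ay + ny) = m * ay + m * ny + θ * (ay + ny) * (q - m) := by ring
    have e2 : κ * V * (q - m) = κ * (q * V) - m * (κ * V) := by ring
    have e3 : m * (ay - κ * V) = m * ay - m * (κ * V) := by ring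
    rw [e1]
    rw [e2] at h1
    rw [e3] at g1
    linarith
  · have h1 : θ * (ay + ny) * (M - q) ≤ κ * V * (M - q) :=
      mul_le_mul_of_nonneg_right hκV (by linarith)
    have e1 : (M - θ * (M - q)) * (ay + ny) = M * ay + M * ny - θ * (ay + ny) * (M - q) := by ring
    have e2 : κ * V * (M - q) = M * (κ * V) - κ * (q * V) := by ring
    have e3 : M * (ay - κ * V) = M * ay - M * (κ * V) := by ring
    rw [e1]
    rw [e2] at h1
    rw [e3] at g2
    linarith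

/-! ### The base case: a point and an interval -/

/-- the interval of half length `l` of the boundary line in the standard position -/
def IJ (l : ℤ) (v : ℤ × ℤ) : Prop := v.1 = 0 ∧ |v.2| ≤ l

lemma src_IJ {l j : ℤ} (h : l ≤ j) (hj : 0 ≤ j) : Src j (IJ l) := by
  rintro x ⟨h1, h2⟩
  rw [abs_le] at h2
  unfold inB
  omega

lemma base_upper {k : ℤ} (hk : 0 ≤ k) (E W : Finset (ℤ × ℤ)) (J : ℤ × ℤ → Prop) :
    Pr E (CS W J (IJ k)) ≤ Pr E (CJ (W ∪ HH k) J (0, 0)) := by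
  apply Pr_mono
  rintro ω hω ⟨x, ⟨h1, h2⟩, v, hv, hc⟩
  rw [abs_le] at h2
  refine ⟨v, hv, ?_⟩
  have h3 : Co (HH k) (0, 0) x := Bx_conn (by unfold inB; simp only; omega)
    (by unfold inB; omega)
  exact (h3.mono (subset_union_right.trans subset_union_right)).trans
    (hc.mono (union_subset_union (subset_refl _) subset_union_left))

lemma base_lower {j : ℕ} (hj : 1 ≤ j) {E W : Finset (ℤ × ℤ)} {J : ℤ × ℤ → Prop}
    (hF : Far (4 * j) E W J) :
    1 / 2 ^ 77 * Pr E (CJ (W ∪ HH j) J (0, 0)) ≤ Pr E (CS W J (IJ (4 * j))) := by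
  have hjz : (1 : ℤ) ≤ j := by exact_mod_cast hj
  have h1 := Pr_harris E (Circ_inc j) (CJ_inc (W ∪ HH j) J (0, 0))
  have h2 : 1 / 2 ^ 77 ≤ Pr E (Circ j) := Pr_Circ' hj hF.flat
  refine ((mul_le_mul_of_nonneg_right h2 (Pr_nonneg _ _)).trans h1).trans ?_
  apply Pr_mono
  rintro ω hω ⟨hC, v, hv, hc⟩
  obtain ⟨u, hu, g4⟩ := last_exit (k := j) (by unfold inB; simp only; omega) hc
  obtain ⟨⟨⟨p, p', p1, p2, p3, p4⟩, hTT⟩, hBB⟩ := hC
  obtain ⟨w, w1, w2, w3⟩ := exit_half hF.thin hω (by unfold inB at hu ⊢; omega) (hF.far v hv) g4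
  have k2 : Co (ω ∩ Bx (-(4 * j)) 0 (-(4 * j)) (4 * j)) p u :=
    hit hjz (by unfold inB at hu ⊢; omega) w1 w3 p1 p2 p3 p4 hTT hBB
  obtain ⟨t, t', t1, t2, t3, t4⟩ := hTT
  have s1 : ω ∩ Bx (-(4 * (j : ℤ))) (-(2 * j)) (-(4 * j)) (4 * j) ⊆
      Bx (-(4 * j)) 0 (-(4 * j)) (4 * j) :=
    inter_subset_right.trans (Bx_sub le_rfl (by omega) le_rfl le_rfl)
  have s2 : ω ∩ Bx (-(4 * (j : ℤ))) 0 (2 * j) (4 * j) ⊆ Bx (-(4 * j)) 0 (-(4 * j)) (4 * j) :=
    inter_subset_right.trans (Bx_sub le_rfl le_rfl (by omega) le_rfl)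
  obtain ⟨r, r1, r2⟩ := cross_co s2 s1 (by unfold inB at t1 ⊢; omega)
      (by unfold inB at p1 ⊢; omega) t4 p4 t2 t3 p2 p3
  have ht' := t4.inB inter_subset_right t1
  refine ⟨t', ⟨t3, ?_⟩, v, hv, ?_⟩
  · unfold inB at ht'
    rw [abs_le]
    omega
  · have c1 : Co ω t' p := ((t4.symm.trans r1).mono inter_subset_left).trans
      (r2.mono inter_subset_left).symm
    have c2 : Co ω p u := k2.mono inter_subset_left
    exact ((c1.trans c2).mono subset_union_left).trans g4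

/-- **The base case.** -/
lemma BdS_base : ∃ c C : ℝ, 0 < c ∧ 0 < C ∧ ∀ j : ℕ, 1 ≤ j →
    BdS (16 * j) (fun v => v = (0, 0)) (IJ (4 * j)) (c * ph (4 * j)) (C * ph (4 * j)) := by
  obtain ⟨c, hc, h1⟩ := qm_lower'
  obtain ⟨C, hC, h2⟩ := ph_ratio 4
  refine ⟨c, 2 ^ 77 * C, hc, by positivity, ?_⟩
  intro j hj E W J hF
  have hjz : (1 : ℤ) ≤ j := by exact_mod_cast hj
  have hp : Pr E (CS W J (fun v => v = (0, 0))) = Pr E (CJ W J (0, 0)) :=
    Pr_congr fun ω _ => CS_single W J (0, 0) ω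
  rw [hp]
  constructor
  · have g := h1 (S := sR (0, 0)) (j := 4 * j) (by omega) (E := E) (W := W)
      ((hF.flat').mono_k (by push_cast; omega)) (J := J) (by
        intro v hv
        have := (hF.mono (k := 4 * (4 * j)) (by omega)).far' v hv
        push_cast
        exact this)
    rw [sR_g, HB_std] at g
    push_cast at g
    have g2 := base_upper (k := 4 * j) (by omega) E W J
    have n : 0 ≤ ph (4 * j) := Pr_nonneg _ _
    calc c * ph (4 * j) * Pr E (CS W J (IJ (4 * j)))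
        ≤ c * ph (4 * j) * Pr E (CJ (W ∪ HH (4 * j)) J (0, 0)) :=
          mul_le_mul_of_nonneg_left g2 (by positivity)
      _ = c * (ph (4 * j) * Pr E (CJ (W ∪ HH (4 * j)) J (0, 0))) := by ring
      _ ≤ _ := g
  · have hFj := hF.mono (k := (j : ℤ)) (by omega)
    have g := qm_upper (S := sR (0, 0)) (k := (j : ℤ)) (by omega) (E := E) (W := W)
      hFj.flat'.1 (J := J) (fun v hv => hFj.far' v hv)
    rw [Pr_wired, sR_g, HB_std] at g
    have g2 := base_lower hj (hF.mono (k := 4 * j) (by omega))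
    have g3 := h2 j (4 * j) (by omega) (by omega) le_rfl
    have n1 : 0 ≤ ph (j : ℤ) := Pr_nonneg _ _
    have n2 := Pr_nonneg E (CS W J (IJ (4 * j)))
    have g4 : Pr E (CJ (W ∪ HH j) J (0, 0)) ≤ 2 ^ 77 * Pr E (CS W J (IJ (4 * j))) := by
      have : Pr E (CJ (W ∪ HH j) J (0, 0)) =
        2 ^ 77 * (1 / 2 ^ 77 * Pr E (CJ (W ∪ HH j) J (0, 0))) := by ring
      rw [this]
      exact mul_le_mul_of_nonneg_left g2 (by positivity)
    calc Pr E (CJ W J (0, 0)) ≤ ph j * Pr E (CJ (W ∪ HH j) J (0, 0)) := g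
      _ ≤ (C * ph (4 * j)) * (2 ^ 77 * Pr E (CS W J (IJ (4 * j)))) :=
        mul_le_mul g3 g4 (Pr_nonneg _ _) (n1.trans g3)
      _ = _ := by ring

/-- Iteration. -/
lemma BdS_iter : ∃ c C θ : ℝ, 0 < c ∧ 0 < C ∧ 0 < θ ∧ θ < 1 ∧ ∀ j : ℕ, 1 ≤ j →
    ∀ n : ℕ, ∃ m M : ℝ, c * ph (4 * j) ≤ m ∧ m ≤ M ∧ M - m ≤ (1 - θ) ^ n * (C * ph (4 * j)) ∧
      BdS (64 ^ n * (16 * j)) (fun v => v = (0, 0)) (IJ (4 * j)) m M := by
  obtain ⟨c, C, hc, hC, h0⟩ := BdS_base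
  obtain ⟨θ, hθ0, hθ1, h1⟩ := BdS_step
  refine ⟨c, max c C, θ, hc, lt_max_of_lt_left hc, hθ0, hθ1, fun j hj n => ?_⟩
  have hph : 0 ≤ ph (4 * j) := Pr_nonneg _ _
  induction n with
  | zero =>
    refine ⟨c * ph (4 * j), max c C * ph (4 * j), le_rfl,
      mul_le_mul_of_nonneg_right (le_max_left _ _) hph, ?_, ?_⟩
    · rw [pow_zero, one_mul]
      have : 0 ≤ c * ph (4 * j) := by positivity
      linarith
    · rw [pow_zero, one_mul]
      intro E W J hF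
      obtain ⟨g1, g2⟩ := h0 j hj E W J hF
      refine ⟨g1, g2.trans ?_⟩
      exact mul_le_mul_of_nonneg_right (mul_le_mul_of_nonneg_right (le_max_right _ _) hph)
        (Pr_nonneg _ _)
  | succ n ih =>
    obtain ⟨m, M, hcm, hmM, hd, hB⟩ := ih
    have hk : ((64 ^ n * (16 * j) : ℕ) : ℤ) = 64 ^ n * (16 * j) := by push_cast; ring
    have hp : 1 ≤ 64 ^ n := Nat.one_le_pow _ _ (by norm_num)
    have hle : 4 * j ≤ 64 ^ n * (16 * j) := by nlinarith
    have hle' : ((4 * j : ℕ) : ℤ) ≤ ((64 ^ n * (16 * j) : ℕ) : ℤ) := by exact_mod_cast hle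
    obtain ⟨m', M', g1, g2, g3, g4, g5⟩ := h1 (64 ^ n * (16 * j)) (by omega)
      (fun v => v = (0, 0)) (IJ (4 * j))
      (by rintro x rfl; unfold inB; simp only; omega)
      (src_IJ (by push_cast at hle' ⊢; omega) (by omega)) m M hmM
      (by rw [hk]; exact hB)
    refine ⟨m', M', hcm.trans g1, g3, ?_, ?_⟩
    · calc M' - m' ≤ (1 - θ) * (M - m) := g4
        _ ≤ (1 - θ) * ((1 - θ) ^ n * (max c C * ph (4 * j))) :=
          mul_le_mul_of_nonneg_left hd (by linarith)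
        _ = (1 - θ) ^ (n + 1) * (max c C * ph (4 * j)) := by ring
    · rw [hk] at g5
      have : (64 : ℤ) ^ (n + 1) * (16 * j) = 64 * (64 ^ n * (16 * j)) := by ring
      rw [this]
      exact g5

lemma ph_pos' {k : ℤ} (hk : 1 ≤ k) : 0 < ph k := by
  obtain ⟨c, hc, -, h⟩ := ph_lower
  refine lt_of_lt_of_le ?_ (h k hk)
  have : (0 : ℝ) < (k : ℝ) := by exact_mod_cast (by omega : 0 < k)
  have := Real.rpow_pos_of_pos this (-(1 / 3) : ℝ)
  positivity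

/-- the interval of half length `l` around `S.g (0, 0)` on the boundary line -/
def IS (S : Sy) (l : ℤ) (v : ℤ × ℤ) : Prop := ∃ y : ℤ, |y| ≤ l ∧ v = S.g (0, y)

lemma Pr_CS_pull (S : Sy) (E W : Finset (ℤ × ℤ)) (J : ℤ × ℤ → Prop) (l : ℤ) :
    Pr E (CS W J (IS S l)) =
      Pr (E.map (inv S).G) (CS (W.map (inv S).G) (fun v => J (S.g v)) (IJ l)) := by
  rw [Pr_pull S E]
  refine Pr_congr fun ω _ => ?_
  constructor
  · rintro ⟨x, ⟨y, hy, rfl⟩, h⟩
    rw [CJ_map] at h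
    exact ⟨(0, y), ⟨rfl, hy⟩, h⟩
  · rintro ⟨⟨x1, y⟩, ⟨h1, hy⟩, h⟩
    simp only at h1 hy
    subst h1
    rw [← CJ_map] at h
    exact ⟨S.g (0, y), ⟨y, hy, rfl⟩, h⟩

/-- **(H1) Ratio limit**: the one-point function at a flat boundary point and the function of the
interval of half length `4j` around it have a universal ratio `a(j)`, up to `ε`, in all environments
which are flat up to the radius `K j`. -/
theorem lv_ratio : ∀ ε : ℝ, 0 < ε → ∃ K : ℕ, 1 ≤ K ∧ ∀ j : ℕ, 1 ≤ j → ∃ a : ℝ, 0 < a ∧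
    ∀ (S : Sy) (E W : Finset (ℤ × ℤ)) (J : ℤ × ℤ → Prop), Flat S E W (K * j) →
      (∀ v, J v → ¬ VI S (K * j) v) →
      a * Pr E (CS W J (IS S (4 * j))) ≤ Pr E (CJ W J (S.g (0, 0))) ∧
      Pr E (CJ W J (S.g (0, 0))) ≤ (1 + ε) * (a * Pr E (CS W J (IS S (4 * j)))) := by
  obtain ⟨c, C, θ, hc, hC, hθ0, hθ1, h⟩ := BdS_iter
  intro ε hε
  obtain ⟨n, hn⟩ := exists_pow_lt_of_lt_one (show 0 < ε * c / C by positivity)
    (show 1 - θ < 1 by linarith)
  refine ⟨64 ^ n * 16, by have : 1 ≤ 64 ^ n := Nat.one_le_pow _ _ (by norm_num)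
                          omega, fun j hj => ?_⟩
  obtain ⟨m, M, h1, h2, h3, h4⟩ := h j hj n
  have hph : 0 < ph (4 * j) := ph_pos' (by omega)
  have hm : 0 < m := lt_of_lt_of_le (by positivity) h1
  refine ⟨m, hm, fun S E W J hF hJ => ?_⟩
  have hk : (((64 ^ n * 16 : ℕ) : ℤ)) * (j : ℤ) = 64 ^ n * (16 * j) := by push_cast; ring
  rw [hk] at hF hJ
  have hFar := far_pull hF hJ
  obtain ⟨g1, g2⟩ := h4 _ _ _ hFar
  have hp : ∀ (E' W' : Finset (ℤ × ℤ)) (J' : ℤ × ℤ → Prop),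
      Pr E' (CS W' J' (fun v => v = (0, 0))) = Pr E' (CJ W' J' (0, 0)) :=
    fun E' W' J' => Pr_congr fun ω _ => CS_single W' J' (0, 0) ω
  rw [hp, ← Pr_CJ_pull, ← Pr_CS_pull] at g1 g2
  refine ⟨g1, g2.trans ?_⟩
  have hMm : M ≤ (1 + ε) * m := by
    have e1 : (1 - θ) ^ n * (C * ph (4 * j)) ≤ ε * m := by
      calc (1 - θ) ^ n * (C * ph (4 * j)) ≤ ε * c / C * (C * ph (4 * j)) :=
            mul_le_mul_of_nonneg_right hn.le (by positivity)
        _ = ε * (c * ph (4 * j)) := by field_simp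
        _ ≤ ε * m := mul_le_mul_of_nonneg_left h1 hε.le
    linarith
  rw [← mul_assoc]
  exact mul_le_mul_of_nonneg_right hMm (Pr_nonneg _ _)

end Pool.Agent.H53.W
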