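import Mathlib
import Pool.Agent.H53.W.LV
import Pool.Agent.Q1.M4.DobG
import Pool.Agent.H48.Q1.InsPts
import Pool.Agent.H52.Q1.SideEv
import Pool.Agent.H29.M7.NewV

set_option autoImplicit false
open Finset Filter Topology

/-! # W-H, H2: the interval around a flat vertex as an arc of a refined type -/

namespace Pool.Agent.H53.W

open Pool.Agent.H75.Perc (dir dir_cases Pr Pr_congr Pr_nonneg Pr_le_one)
open Pool.Agent.Q1.M4
open Pool.Agent.Q1.M5 (hh lv FlatV App EL CI CT TV sV)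
open Pool.Agent.H48.Q1 (Refi RefA vm exists_refine exists_new_h exists_new_v)
open Pool.Agent.H49.Q1 (CJ Flat VI Sd)
open Pool.Agent.H52.Q1 (Sd_slide)
open Pool.Agent.Q1.Dob (mem_sV)
open Pool.Agent.H5.Q1 (slen sp gp)

/-! ### Straight runs of sides -/

lemma sp_eq (P : PType) (X Y : ℤ → ℤ) (n j : ℕ) :
    sp X Y (P.side n) j = lv P X Y n + (j : ℤ) • dir (P.side n).2 := by
  unfold sp lv lpt gp PType.vert
  refine Prod.ext ?_ ?_ <;> simp

lemma lv_succ (P : PType) {X Y : ℤ → ℤ} (hX : StrictMono X) (hY : StrictMono Y) (n : ℕ) :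
    lv P X Y (n + 1) = lv P X Y n + ((slen X Y (P.side n) : ℕ) : ℤ) • dir (P.side n).2 := by
  have h := Pool.Agent.H4.Q1.bw_next X Y P.Q (P.side n)
  have h1 : lv P X Y (n + 1) = Pool.Agent.H4.Q1.bw X Y (nextSide P.Q (P.side n)) 0 := by
    unfold Pool.Agent.H4.Q1.bw lv PType.vert
    rw [zero_smul, add_zero, P.side_succ]
  rw [h1, h]
  have h2 : Pool.Agent.H4.Q1.len X Y (P.side n) = ((slen X Y (P.side n) : ℕ) : ℤ) := by
    unfold Pool.Agent.H4.Q1.len slen
    have a1 : X (P.side n).1.1 < X ((P.side n).1.1 + 1) := hX (by omega)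
    have a2 : Y (P.side n).1.2 < Y ((P.side n).1.2 + 1) := hY (by omega)
    split_ifs <;> omega
  rw [h2]
  rfl

/-- Consecutive sides in the same direction form a segment. -/
lemma straight_run (P : PType) {X Y : ℤ → ℤ} (hX : StrictMono X) (hY : StrictMono Y) {r : ℕ}
    {k : ℤ} {d : ℕ} (hd : 1 ≤ d) (hk : ∀ i, r ≤ i → i < r + d → (P.side i).2 = k) :
    ∃ N : ℕ, lv P X Y (r + d) = lv P X Y r + (N : ℤ) • dir k ∧
      ∀ v, (∃ i, r ≤ i ∧ i < r + d ∧ sV X Y (P.side i) v) ↔
        ∃ l : ℕ, l ≤ N ∧ v = lv P X Y r + (l : ℤ) • dir k := by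
  induction d with
  | zero => omega
  | succ d ih =>
    have hs := hk (r + d) (by omega) (by omega)
    have hv : ∀ v, sV X Y (P.side (r + d)) v ↔ ∃ l : ℕ, l ≤ slen X Y (P.side (r + d)) ∧
        v = lv P X Y (r + d) + (l : ℤ) • dir k := by
      intro v
      rw [mem_sV hX hY]
      simp only [sp_eq, hs]
    have hn := lv_succ P hX hY (r + d)
    rw [hs] at hn
    rcases Nat.eq_zero_or_pos d with rfl | hd0
    · refine ⟨slen X Y (P.side r), hn, fun v => ?_⟩
      have hv := hv v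
      rw [Nat.add_zero] at hv
      rw [← hv]
      constructor
      · rintro ⟨i, h1, h2, h3⟩
        have : i = r := by omega
        rwa [this] at h3
      · exact fun h => ⟨r, le_rfl, by omega, h⟩
    · obtain ⟨N, h1, h2⟩ := ih hd0 (fun i hi hi' => hk i hi (by omega))
      refine ⟨N + slen X Y (P.side (r + d)), ?_, fun v => ?_⟩
      · rw [← add_assoc, hn, h1, add_assoc, ← add_smul]
        push_cast
        rfl
      · constructor
        · rintro ⟨i, hi, hi', h3⟩
          by_cases h4 : i < r + d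
          · obtain ⟨l, hl, e⟩ := (h2 v).1 ⟨i, hi, h4, h3⟩
            exact ⟨l, by omega, e⟩
          · have : i = r + d := by omega
            rw [this] at h3
            obtain ⟨l, hl, e⟩ := (hv v).1 h3
            refine ⟨N + l, by omega, ?_⟩
            rw [e, h1, add_assoc, ← add_smul]
            push_cast
            rfl
        · rintro ⟨l, hl, e⟩
          by_cases h4 : l ≤ N
          · obtain ⟨i, hi, hi', h3⟩ := (h2 v).2 ⟨l, h4, e⟩
            exact ⟨i, hi, by omega, h3⟩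
          · refine ⟨r + d, by omega, by omega, (hv v).2 ⟨l - N, by omega, ?_⟩⟩
            rw [e, h1, add_assoc, ← add_smul]
            congr 2
            omega

/-! ### The refined type -/

/-- The data of an interval of half length `t` around the flat vertex `n`. -/
structure Intv (P : PType) (x y : ℤ → ℝ) (n : ℕ) (t : ℝ) (x' y' : ℤ → ℝ) (I K : ℤ → ℤ)
    (hr : Refi x y x' y' I K) (n1 n2 : ℕ) : Prop where
  h0 : 0 < n1
  h1 : n1 < n2
  h2 : n2 < (P.refine hr.hI hr.hK).m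
  p1 : pt x' y' ((P.refine hr.hI hr.hK).vert n1) = pt x y (P.vert n) - t * udir (P.side n).2
  p2 : pt x' y' ((P.refine hr.hI hr.hK).vert n2) = pt x y (P.vert n) + t * udir (P.side n).2
  dr : ∀ i, n1 ≤ i → i < n2 → ((P.refine hr.hI hr.hK).side i).2 = (P.side n).2
  ap : ∀ (R : ℕ → ℝ) (X Y : ℕ → ℤ → ℤ) (T : ℕ → ℤ), App x y R X Y →
    Tendsto (fun j => (T j : ℝ) / R j) atTop (𝓝 t) → ∃ X' Y' : ℕ → ℤ → ℤ, App x' y' R X' Y' ∧
      RefA I K X Y X' Y' ∧ ∀ j,
        lv (P.refine hr.hI hr.hK) (X' j) (Y' j) n1 = lv P (X j) (Y j) n - T j • dir (P.side n).2 ∧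
        lv (P.refine hr.hI hr.hK) (X' j) (Y' j) n2 = lv P (X j) (Y j) n + T j • dir (P.side n).2

/-- the new vertices -/
lemma loc_facts (P : PType) {I K : ℤ → ℤ} (hI : StrictMono I) (hK : StrictMono K) {n : ℕ}
    (hn : FlatV P n) {j1 j2 : ℕ} (a1 : 0 < j1) (a2 : j1 < Pool.Agent.H48.Q1.len I K (P.side (n - 1)))
    (b1 : 0 < j2) (b2 : j2 < Pool.Agent.H48.Q1.len I K (P.side n)) :
    0 < P.L I K (n - 1) + j1 ∧ P.L I K (n - 1) + j1 < P.L I K n + j2 ∧
      P.L I K n + j2 < (P.refine hI hK).m ∧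
      ∀ i, P.L I K (n - 1) + j1 ≤ i → i < P.L I K n + j2 →
        ((P.refine hI hK).side i).2 = (P.side n).2 := by
  obtain ⟨h0, hm, hk⟩ := hn
  have hL : P.L I K n = P.L I K (n - 1) + Pool.Agent.H48.Q1.len I K (P.side (n - 1)) := by
    have := P.L_succ (I := I) (K := K) (n - 1)
    rwa [show n - 1 + 1 = n by omega] at this
  refine ⟨by omega, by omega, ?_, ?_⟩
  · rw [P.refine_m]
    exact (P.loc_lt hI hK b2).2 hm
  · intro i hi hi'
    rcases lt_or_ge i (P.L I K n) with h | h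
    · obtain ⟨j, rfl⟩ : ∃ j, i = P.L I K (n - 1) + j := ⟨i - P.L I K (n - 1), by omega⟩
      rw [P.refine_dir hI hK (by omega), hk]
    · obtain ⟨j, rfl⟩ : ∃ j, i = P.L I K n + j := ⟨i - P.L I K n, by omega⟩
      exact P.refine_dir hI hK (by omega)

lemma vert_pred (P : PType) {n : ℕ} (hn : FlatV P n) :
    P.vert n = P.vert (n - 1) + dir (P.side n).2 := by
  obtain ⟨h0, hm, hk⟩ := hn
  have := P.vert_succ (n - 1)
  rwa [show n - 1 + 1 = n by omega, hk] at this

/-- horizontal sides -/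
lemma intv_h (P : PType) {x y : ℤ → ℝ} (hx : StrictMono x) (hy : StrictMono y) {n : ℕ}
    (hn : FlatV P n) {a b : ℤ} (hab : P.vert n = (a, b)) (hk : (P.side n).2 % 2 = 0) {t : ℝ}
    (ht : 0 < t) (h1 : t < x (a + 1) - x a) (h2 : t < x a - x (a - 1)) :
    ∃ (x' y' : ℤ → ℝ) (I K : ℤ → ℤ) (hr : Refi x y x' y' I K) (n1 n2 : ℕ),
      Intv P x y n t x' y' I K hr n1 n2 := by
  classical
  have hcells := Pool.Agent.H52.Q1.flatV_cells hn hab
  have hvp := vert_pred P hn
  have hkk := hn.2.2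
  obtain ⟨x', y', I, K, cx, cy, hr, hcx, -, hlift⟩ := exists_refine hx hy {x a - t, x a + t} ∅
    (by
      intro z hz
      rw [mem_insert, mem_singleton] at hz
      rcases hz with rfl | rfl
      · exact ⟨a - 1, a, by linarith, by linarith⟩
      · exact ⟨a, a + 1, by linarith, by linarith⟩) (by simp)
  have e1 : x' (cx (x a - t)) = x a - t := hcx _ (by simp)
  have e2 : x' (cx (x a + t)) = x a + t := hcx _ (by simp)
  have m1 : I (a - 1) < cx (x a - t) ∧ cx (x a - t) < I a := by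
    have := hr.between_x (a := a - 1) (c := cx (x a - t)) (by rw [e1]; linarith)
      (by rw [e1, sub_add_cancel]; linarith)
    rwa [sub_add_cancel] at this
  have m2 := hr.between_x (a := a) (c := cx (x a + t)) (by rw [e2]; linarith)
      (by rw [e2]; linarith)
  have n1 : ∀ i, x i ≠ x a - t := by
    intro i hi
    have c1 : x (a - 1) < x i := by rw [hi]; linarith
    have c2 : x i < x a := by rw [hi]; linarith
    rw [hx.lt_iff_lt] at c1 c2
    omega
  have n2 : ∀ i, x i ≠ x a + t := by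
    intro i hi
    have c1 : x a < x i := by rw [hi]; linarith
    have c2 : x i < x (a + 1) := by rw [hi]; linarith
    rw [hx.lt_iff_lt] at c1 c2
    omega
  have lift : ∀ (R : ℕ → ℝ) (X Y : ℕ → ℤ → ℤ) (T : ℕ → ℤ), App x y R X Y →
      Tendsto (fun j => (T j : ℝ) / R j) atTop (𝓝 t) → ∃ X' Y' : ℕ → ℤ → ℤ, App x' y' R X' Y' ∧
      RefA I K X Y X' Y' ∧ ∀ j, X' j (cx (x a - t)) = X j a - T j ∧
        X' j (cx (x a + t)) = X j a + T j := by
    intro R X Y T hA hT
    have hne : ¬ (x a + t = x a - t) := by intro h; linarith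
    obtain ⟨X', Y', b1, b2, b3, -⟩ := hlift R X Y
      (fun z j => if z = x a - t then X j a - T j else X j a + T j) (fun _ _ => 0) hA
      (by
        intro z hz _
        rw [mem_insert, mem_singleton] at hz
        rcases hz with rfl | rfl
        · simp only [if_true]
          refine ((hA.app.X_lim a).sub hT).congr fun j => ?_
          push_cast; ring
        · simp only [if_neg hne]
          refine ((hA.app.X_lim a).add hT).congr fun j => ?_
          push_cast; ring) (by simp)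
    refine ⟨X', Y', b1, b2, fun j => ⟨?_, ?_⟩⟩
    · rw [b3 _ (by simp) n1 j, if_pos rfl]
    · rw [b3 _ (by simp) n2 j, if_neg hne]
  rw [hab] at hvp
  have hk4 : (P.side n).2 % 4 = 0 ∨ (P.side n).2 % 4 = 2 := by omega
  rcases hk4 with hk4 | hk4
  · obtain ⟨⟨-, s1, s2⟩, -⟩ : ((P.side n).2 % 4 = 0 ∧ (P.side n).1 = (a, b) ∧
        (P.side (n - 1)).1 = (a - 1, b)) ∧ True := by
      rcases hcells with ⟨h, -⟩ | ⟨⟨h, -⟩, -⟩ | ⟨⟨h, -⟩, -⟩ | ⟨⟨h, -⟩, -⟩
      · exact ⟨h, trivial⟩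
      all_goals (exfalso; omega)
    have hd : dir (P.side n).2 = (1, 0) := Pool.Agent.H52.Q1.dir0 hk4
    have hvp2 : (P.vert (n - 1)).2 = b := by
      rw [hd] at hvp
      have := congrArg Prod.snd hvp
      simp at this
      exact this.symm
    obtain ⟨j1, a1, a2, a3⟩ := exists_new_h P hr.hI hr.hK (n := n - 1) (c := cx (x a - t))
      (by rw [hkk]; exact hk) (by rw [s2]; exact m1.1)
      (by rw [s2]; simp only [sub_add_cancel]; exact m1.2)
    obtain ⟨j2, b1, b2, b3⟩ := exists_new_h P hr.hI hr.hK (n := n) (c := cx (x a + t))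
      hk (by rw [s1]; exact m2.1) (by rw [s1]; exact m2.2)
    rw [hvp2] at a3
    rw [hab] at b3
    obtain ⟨q1, q2, q3, q4⟩ := loc_facts P hr.hI hr.hK hn a1 a2 b1 b2
    have hu : udir (P.side n).2 = 1 := by unfold udir; rw [hd]; apply Complex.ext <;> simp
    refine ⟨x', y', I, K, hr, _, _, q1, q2, q3, ?_, ?_, q4, ?_⟩
    · rw [a3, hab, hu]
      apply Complex.ext
      · simp [pt, e1]
      · simp [pt, hr.ey]
    · rw [b3, hab, hu]
      apply Complex.ext
      · simp [pt, e2]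
      · simp [pt, hr.ey]
    · intro R X Y T hA hT
      obtain ⟨X', Y', c1, c2, c3⟩ := lift R X Y T hA hT
      refine ⟨X', Y', c1, c2, fun j => ⟨?_, ?_⟩⟩
      · unfold lv lpt
        rw [a3, hab, hd]
        refine Prod.ext ?_ ?_
        · simp [(c3 j).1]
        · simp [c2.eY]
      · unfold lv lpt
        rw [b3, hab, hd]
        refine Prod.ext ?_ ?_
        · simp [(c3 j).2]
        · simp [c2.eY]
  · obtain ⟨⟨-, s1, s2⟩, -⟩ : ((P.side n).2 % 4 = 2 ∧ (P.side n).1 = (a - 1, b - 1) ∧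
        (P.side (n - 1)).1 = (a, b - 1)) ∧ True := by
      rcases hcells with ⟨⟨h, -⟩, -⟩ | ⟨⟨h, -⟩, -⟩ | ⟨h, -⟩ | ⟨⟨h, -⟩, -⟩
      · exfalso; omega
      · exfalso; omega
      · exact ⟨h, trivial⟩
      · exfalso; omega
    have hd : dir (P.side n).2 = (-1, 0) := Pool.Agent.H52.Q1.dir2 hk4
    have hvp2 : (P.vert (n - 1)).2 = b := by
      rw [hd] at hvp
      have := congrArg Prod.snd hvp
      simp at this
      exact this.symm
    obtain ⟨j1, a1, a2, a3⟩ := exists_new_h P hr.hI hr.hK (n := n - 1) (c := cx (x a + t))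
      (by rw [hkk]; exact hk) (by rw [s2]; exact m2.1) (by rw [s2]; exact m2.2)
    obtain ⟨j2, b1, b2, b3⟩ := exists_new_h P hr.hI hr.hK (n := n) (c := cx (x a - t))
      hk (by rw [s1]; exact m1.1) (by rw [s1]; simp only [sub_add_cancel]; exact m1.2)
    rw [hvp2] at a3
    rw [hab] at b3
    obtain ⟨q1, q2, q3, q4⟩ := loc_facts P hr.hI hr.hK hn a1 a2 b1 b2
    have hu : udir (P.side n).2 = -1 := by unfold udir; rw [hd]; apply Complex.ext <;> simp
    refine ⟨x', y', I, K, hr, _, _, q1, q2, q3, ?_, ?_, q4, ?_⟩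
    · rw [a3, hab, hu]
      apply Complex.ext
      · simp [pt, e2]
      · simp [pt, hr.ey]
    · rw [b3, hab, hu]
      apply Complex.ext
      · simp [pt, e1]; ring
      · simp [pt, hr.ey]
    · intro R X Y T hA hT
      obtain ⟨X', Y', c1, c2, c3⟩ := lift R X Y T hA hT
      refine ⟨X', Y', c1, c2, fun j => ⟨?_, ?_⟩⟩
      · unfold lv lpt
        rw [a3, hab, hd]
        refine Prod.ext ?_ ?_
        · simp [(c3 j).2]
        · simp [c2.eY]
      · unfold lv lpt
        rw [b3, hab, hd]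
        refine Prod.ext ?_ ?_
        · simp [(c3 j).1]; ring
        · simp [c2.eY]

/-- vertical sides -/
lemma intv_v (P : PType) {x y : ℤ → ℝ} (hx : StrictMono x) (hy : StrictMono y) {n : ℕ}
    (hn : FlatV P n) {a b : ℤ} (hab : P.vert n = (a, b)) (hk : (P.side n).2 % 2 = 1) {t : ℝ}
    (ht : 0 < t) (h1 : t < y (b + 1) - y b) (h2 : t < y b - y (b - 1)) :
    ∃ (x' y' : ℤ → ℝ) (I K : ℤ → ℤ) (hr : Refi x y x' y' I K) (n1 n2 : ℕ),
      Intv P x y n t x' y' I K hr n1 n2 := by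
  classical
  have hcells := Pool.Agent.H52.Q1.flatV_cells hn hab
  have hvp := vert_pred P hn
  have hkk := hn.2.2
  obtain ⟨x', y', I, K, cx, cy, hr, -, hcy, hlift⟩ := exists_refine hx hy ∅ {y b - t, y b + t}
    (by simp) (by
      intro z hz
      rw [mem_insert, mem_singleton] at hz
      rcases hz with rfl | rfl
      · exact ⟨b - 1, b, by linarith, by linarith⟩
      · exact ⟨b, b + 1, by linarith, by linarith⟩)
  have e1 : y' (cy (y b - t)) = y b - t := hcy _ (by simp)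
  have e2 : y' (cy (y b + t)) = y b + t := hcy _ (by simp)
  have m1 : K (b - 1) < cy (y b - t) ∧ cy (y b - t) < K b := by
    have := hr.between_y (a := b - 1) (c := cy (y b - t)) (by rw [e1]; linarith)
      (by rw [e1, sub_add_cancel]; linarith)
    rwa [sub_add_cancel] at this
  have m2 := hr.between_y (a := b) (c := cy (y b + t)) (by rw [e2]; linarith)
      (by rw [e2]; linarith)
  have n1 : ∀ i, y i ≠ y b - t := by
    intro i hi
    have c1 : y (b - 1) < y i := by rw [hi]; linarith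
    have c2 : y i < y b := by rw [hi]; linarith
    rw [hy.lt_iff_lt] at c1 c2
    omega
  have n2 : ∀ i, y i ≠ y b + t := by
    intro i hi
    have c1 : y b < y i := by rw [hi]; linarith
    have c2 : y i < y (b + 1) := by rw [hi]; linarith
    rw [hy.lt_iff_lt] at c1 c2
    omega
  have lift : ∀ (R : ℕ → ℝ) (X Y : ℕ → ℤ → ℤ) (T : ℕ → ℤ), App x y R X Y →
      Tendsto (fun j => (T j : ℝ) / R j) atTop (𝓝 t) → ∃ X' Y' : ℕ → ℤ → ℤ, App x' y' R X' Y' ∧
      RefA I K X Y X' Y' ∧ ∀ j, Y' j (cy (y b - t)) = Y j b - T j ∧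
        Y' j (cy (y b + t)) = Y j b + T j := by
    intro R X Y T hA hT
    have hne : ¬ (y b + t = y b - t) := by intro h; linarith
    obtain ⟨X', Y', b1, b2, -, b3⟩ := hlift R X Y (fun _ _ => 0)
      (fun z j => if z = y b - t then Y j b - T j else Y j b + T j) hA (by simp)
      (by
        intro z hz _
        rw [mem_insert, mem_singleton] at hz
        rcases hz with rfl | rfl
        · simp only [if_true]
          refine ((hA.app.Y_lim b).sub hT).congr fun j => ?_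
          push_cast; ring
        · simp only [if_neg hne]
          refine ((hA.app.Y_lim b).add hT).congr fun j => ?_
          push_cast; ring)
    refine ⟨X', Y', b1, b2, fun j => ⟨?_, ?_⟩⟩
    · rw [b3 _ (by simp) n1 j, if_pos rfl]
    · rw [b3 _ (by simp) n2 j, if_neg hne]
  rw [hab] at hvp
  have hk4 : (P.side n).2 % 4 = 1 ∨ (P.side n).2 % 4 = 3 := by omega
  rcases hk4 with hk4 | hk4
  · obtain ⟨⟨-, s1, s2⟩, -⟩ : ((P.side n).2 % 4 = 1 ∧ (P.side n).1 = (a - 1, b) ∧
        (P.side (n - 1)).1 = (a - 1, b - 1)) ∧ True := by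
      rcases hcells with ⟨⟨h, -⟩, -⟩ | ⟨h, -⟩ | ⟨⟨h, -⟩, -⟩ | ⟨⟨h, -⟩, -⟩
      · exfalso; omega
      · exact ⟨h, trivial⟩
      · exfalso; omega
      · exfalso; omega
    have hd : dir (P.side n).2 = (0, 1) := Pool.Agent.H52.Q1.dir1 hk4
    have hvp2 : (P.vert (n - 1)).1 = a := by
      rw [hd] at hvp
      have := congrArg Prod.fst hvp
      simp at this
      exact this.symm
    obtain ⟨j1, a1, a2, a3⟩ := exists_new_v P hr.hI hr.hK (n := n - 1) (c := cy (y b - t))
      (by rw [hkk]; exact hk) (by rw [s2]; exact m1.1)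
      (by rw [s2]; simp only [sub_add_cancel]; exact m1.2)
    obtain ⟨j2, b1, b2, b3⟩ := exists_new_v P hr.hI hr.hK (n := n) (c := cy (y b + t))
      hk (by rw [s1]; exact m2.1) (by rw [s1]; exact m2.2)
    rw [hvp2] at a3
    rw [hab] at b3
    obtain ⟨q1, q2, q3, q4⟩ := loc_facts P hr.hI hr.hK hn a1 a2 b1 b2
    have hu : udir (P.side n).2 = Complex.I := by
      unfold udir; rw [hd]; apply Complex.ext <;> simp
    refine ⟨x', y', I, K, hr, _, _, q1, q2, q3, ?_, ?_, q4, ?_⟩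
    · rw [a3, hab, hu]
      apply Complex.ext
      · simp [pt, hr.ex]
      · simp [pt, e1]
    · rw [b3, hab, hu]
      apply Complex.ext
      · simp [pt, hr.ex]
      · simp [pt, e2]
    · intro R X Y T hA hT
      obtain ⟨X', Y', c1, c2, c3⟩ := lift R X Y T hA hT
      refine ⟨X', Y', c1, c2, fun j => ⟨?_, ?_⟩⟩
      · unfold lv lpt
        rw [a3, hab, hd]
        refine Prod.ext ?_ ?_
        · simp [c2.eX]
        · simp [(c3 j).1]
      · unfold lv lpt
        rw [b3, hab, hd]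
        refine Prod.ext ?_ ?_
        · simp [c2.eX]
        · simp [(c3 j).2]
  · obtain ⟨⟨-, s1, s2⟩, -⟩ : ((P.side n).2 % 4 = 3 ∧ (P.side n).1 = (a, b - 1) ∧
        (P.side (n - 1)).1 = (a, b)) ∧ True := by
      rcases hcells with ⟨⟨h, -⟩, -⟩ | ⟨⟨h, -⟩, -⟩ | ⟨⟨h, -⟩, -⟩ | ⟨h, -⟩
      · exfalso; omega
      · exfalso; omega
      · exfalso; omega
      · exact ⟨h, trivial⟩
    have hd : dir (P.side n).2 = (0, -1) := Pool.Agent.H52.Q1.dir3 hk4
    have hvp2 : (P.vert (n - 1)).1 = a := by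
      rw [hd] at hvp
      have := congrArg Prod.fst hvp
      simp at this
      exact this.symm
    obtain ⟨j1, a1, a2, a3⟩ := exists_new_v P hr.hI hr.hK (n := n - 1) (c := cy (y b + t))
      (by rw [hkk]; exact hk) (by rw [s2]; exact m2.1) (by rw [s2]; exact m2.2)
    obtain ⟨j2, b1, b2, b3⟩ := exists_new_v P hr.hI hr.hK (n := n) (c := cy (y b - t))
      hk (by rw [s1]; exact m1.1) (by rw [s1]; simp only [sub_add_cancel]; exact m1.2)
    rw [hvp2] at a3
    rw [hab] at b3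
    obtain ⟨q1, q2, q3, q4⟩ := loc_facts P hr.hI hr.hK hn a1 a2 b1 b2
    have hu : udir (P.side n).2 = -Complex.I := by
      unfold udir; rw [hd]; apply Complex.ext <;> simp
    refine ⟨x', y', I, K, hr, _, _, q1, q2, q3, ?_, ?_, q4, ?_⟩
    · rw [a3, hab, hu]
      apply Complex.ext
      · simp [pt, hr.ex]
      · simp [pt, e2]
    · rw [b3, hab, hu]
      apply Complex.ext
      · simp [pt, hr.ex]
      · simp [pt, e1]; ring
    · intro R X Y T hA hT
      obtain ⟨X', Y', c1, c2, c3⟩ := lift R X Y T hA hT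
      refine ⟨X', Y', c1, c2, fun j => ⟨?_, ?_⟩⟩
      · unfold lv lpt
        rw [a3, hab, hd]
        refine Prod.ext ?_ ?_
        · simp [c2.eX]
        · simp [(c3 j).2]
      · unfold lv lpt
        rw [b3, hab, hd]
        refine Prod.ext ?_ ?_
        · simp [c2.eX]
        · simp [(c3 j).1]; ring

/-- **Intervals around a flat vertex.** -/
theorem exists_intv (P : PType) {x y : ℤ → ℝ} (hx : StrictMono x) (hy : StrictMono y) {n : ℕ}
    (hn : FlatV P n) : ∃ t0 : ℝ, 0 < t0 ∧ ∀ t, 0 < t → t < t0 →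
      ∃ (x' y' : ℤ → ℝ) (I K : ℤ → ℤ) (hr : Refi x y x' y' I K) (n1 n2 : ℕ),
        Intv P x y n t x' y' I K hr n1 n2 := by
  obtain ⟨⟨a, b⟩, hab⟩ : ∃ v : ℤ × ℤ, P.vert n = v := ⟨_, rfl⟩
  have c1 : 0 < x (a + 1) - x a := sub_pos.2 (hx (by omega))
  have c2 : 0 < x a - x (a - 1) := sub_pos.2 (hx (by omega))
  have c3 : 0 < y (b + 1) - y b := sub_pos.2 (hy (by omega))
  have c4 : 0 < y b - y (b - 1) := sub_pos.2 (hy (by omega))
  refine ⟨min (min (x (a + 1) - x a) (x a - x (a - 1))) (min (y (b + 1) - y b) (y b - y (b - 1))),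
    lt_min (lt_min c1 c2) (lt_min c3 c4), fun t ht h => ?_⟩
  rw [lt_min_iff, lt_min_iff, lt_min_iff] at h
  have hk2 : (P.side n).2 % 2 = 0 ∨ (P.side n).2 % 2 = 1 := by omega
  rcases hk2 with hk2 | hk2
  · exact intv_h P hx hy hn hab hk2 ht h.1.1 h.1.2
  · exact intv_v P hx hy hn hab hk2 ht h.2.1 h.2.2

/-! ### The probability -/

lemma IS_Sd (k : ℤ) (p : ℤ × ℤ) (l : ℤ) (v : ℤ × ℤ) :
    IS (Sd k p) l v ↔ ∃ y : ℤ, |y| ≤ l ∧ v = p + y • dir k := by
  constructor
  · rintro ⟨y, hy, rfl⟩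
    obtain ⟨z, h1, h2⟩ := Sd_slide k p y
    rcases abs_eq_abs.1 h1 with h | h
    · exact ⟨y, hy, by rw [← h2, h]⟩
    · obtain ⟨z', h1', h2'⟩ := Sd_slide k p (-y)
      have e : z' = y ∨ z' = -y := by
        rw [abs_neg] at h1'
        exact abs_eq_abs.1 h1'
      rcases e with e | e
      · exact ⟨-y, by rwa [abs_neg], by rw [← h2', e]⟩
      · -- both slides give the same point, so `y = 0`
        have h3 : p + y • dir k = p + (-y) • dir k := by rw [← h2, ← h2', h, e]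
        refine ⟨y, hy, ?_⟩
        have h4 : y = 0 := by
          have h5 : y • dir k = (-y) • dir k := add_left_cancel h3
          rcases dir_cases k with ⟨-, d⟩ | ⟨-, d⟩ | ⟨-, d⟩ | ⟨-, d⟩ <;> rw [d] at h5 <;>
            simp [Prod.ext_iff] at h5 <;> omega
        subst h4
        rw [← h2, h]
        simp
  · rintro ⟨y, hy, rfl⟩
    obtain ⟨z, h1, h2⟩ := Sd_slide k p y
    exact ⟨z, by rwa [h1], h2.symm⟩

/-- **The event of the arc of the refined type is the event of the interval.** -/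
theorem Intv.CI_iff {P : PType} {x y : ℤ → ℝ} {n : ℕ} {t : ℝ} {x' y' : ℤ → ℝ} {I K : ℤ → ℤ}
    {hr : Refi x y x' y' I K} {n1 n2 : ℕ} (h : Intv P x y n t x' y' I K hr n1 n2)
    {X Y X' Y' : ℕ → ℤ → ℤ} (hRA : RefA I K X Y X' Y') {j : ℕ} (hX : StrictMono (X' j))
    (hY : StrictMono (Y' j)) {T : ℤ} (hT : 0 ≤ T)
    (e1 : lv (P.refine hr.hI hr.hK) (X' j) (Y' j) n1 = lv P (X j) (Y j) n - T • dir (P.side n).2)
    (e2 : lv (P.refine hr.hI hr.hK) (X' j) (Y' j) n2 = lv P (X j) (Y j) n + T • dir (P.side n).2)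
    (ω : Finset (ℤ × ℤ)) :
    CI (P.refine hr.hI hr.hK) (X' j) (Y' j) n1 n2 ω ↔
      CS (Pool.Agent.Q1.M5.WL P (X j) (Y j)) (TV P (X j) (Y j))
        (IS (Sd (P.side n).2 (lv P (X j) (Y j) n)) T) ω := by
  obtain ⟨d, hd⟩ : ∃ d, n2 = n1 + d := ⟨n2 - n1, by have := h.h1; omega⟩
  subst hd
  have hd1 : 1 ≤ d := by have := h.h1; omega
  obtain ⟨N, g1, g2⟩ := straight_run (P.refine hr.hI hr.hK) hX hY (r := n1) (k := (P.side n).2) hd1
    (fun i hi hi' => h.dr i hi hi')
  have hN : (N : ℤ) = 2 * T := by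
    rw [e1, e2, sub_add, sub_eq_add_neg] at g1
    have g3 := add_left_cancel g1
    rcases dir_cases (P.side n).2 with ⟨-, e⟩ | ⟨-, e⟩ | ⟨-, e⟩ | ⟨-, e⟩ <;> rw [e] at g3 <;>
      simp [Prod.ext_iff] at g3 <;> omega
  have hcell : ∀ v, (∃ i, n1 ≤ i ∧ i < n1 + d ∧ sV (X' j) (Y' j) ((P.refine hr.hI hr.hK).side i) v) ↔
      IS (Sd (P.side n).2 (lv P (X j) (Y j) n)) T v := by
    intro v
    rw [g2 v, IS_Sd, e1]
    constructor
    · rintro ⟨l, hl, rfl⟩
      refine ⟨(l : ℤ) - T, by rw [abs_le]; omega, ?_⟩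
      rw [sub_smul]
      abel
    · rintro ⟨z, hz, rfl⟩
      rw [abs_le] at hz
      refine ⟨(z + T).toNat, by omega, ?_⟩
      have : (((z + T).toNat : ℕ) : ℤ) = z + T := by omega
      rw [this, add_smul]
      abel
  have hCT := hRA.CT P hr.hI hr.hK hX hY
  unfold CI CS
  rw [hCT]
  constructor
  · rintro ⟨i, h1, h2, v, hv, hc⟩
    exact ⟨v, (hcell v).1 ⟨i, h1, h2, hv⟩, hc⟩
  · rintro ⟨v, hv, hc⟩
    obtain ⟨i, h1, h2, h3⟩ := (hcell v).2 hv
    exact ⟨i, h1, h2, v, h3, hc⟩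

end Pool.Agent.H53.W
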