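import Mathlib
import Pool.Agent.H53.W.Lat
import Pool.Agent.H5.WH.Defs

set_option autoImplicit false
open Finset Filter Topology

/-! # W-H, H1: the final form of the ratio limit -/

namespace Pool.Agent.H53.W

open Pool.Agent.H75.Perc (dir dir_cases Pr Pr_congr Pr_nonneg Pr_le_one)
open Pool.Agent.Q1.M4
open Pool.Agent.Q1.M5 (hh lv FlatV App EL CI CT TV sV)
open Pool.Agent.H48.Q1 (Refi RefA)
open Pool.Agent.H49.Q1 (CJ Flat VI Sd Sd_g)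
open Pool.Agent.H52.Q1 (Sd_slide small_ev flat_EL TV_out Small)
open Pool.Agent.H5.WH (PI StRL)

lemma PI_eq (P : PType) (X Y : ℤ → ℤ) (n : ℕ) (L : ℤ) :
    PI P X Y n L = Pr (EL P X Y) (CS (Pool.Agent.Q1.M5.WL P X Y) (TV P X Y)
      (IS (Sd (P.side n).2 (lv P X Y n)) L)) := by
  unfold PI
  refine Pr_congr fun ω _ => ?_
  unfold CS
  constructor
  · rintro ⟨t, ht, h⟩
    exact ⟨_, (IS_Sd _ _ _ _).2 ⟨t, ht, rfl⟩, h⟩
  · rintro ⟨v, hv, h⟩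
    obtain ⟨t, ht, rfl⟩ := (IS_Sd _ _ _ _).1 hv
    exact ⟨t, ht, h⟩

/-- **The crossing probability of the arc of the refined type.** -/
theorem Intv.CI_PI {P : PType} {x y : ℤ → ℝ} {n : ℕ} {t : ℝ} {x' y' : ℤ → ℝ} {I K : ℤ → ℤ}
    {hr : Refi x y x' y' I K} {n1 n2 : ℕ} (h : Intv P x y n t x' y' I K hr n1 n2)
    {X Y X' Y' : ℕ → ℤ → ℤ} (hRA : RefA I K X Y X' Y') {j : ℕ} (hX : StrictMono (X' j))
    (hY : StrictMono (Y' j)) {T : ℤ} (hT : 0 ≤ T)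
    (e1 : lv (P.refine hr.hI hr.hK) (X' j) (Y' j) n1 = lv P (X j) (Y j) n - T • dir (P.side n).2)
    (e2 : lv (P.refine hr.hI hr.hK) (X' j) (Y' j) n2 = lv P (X j) (Y j) n + T • dir (P.side n).2) :
    Pr (EL (P.refine hr.hI hr.hK) (X' j) (Y' j)) (CI (P.refine hr.hI hr.hK) (X' j) (Y' j) n1 n2) =
      PI P (X j) (Y j) n T := by
  rw [PI_eq, hRA.EL P hr.hI hr.hK hX hY]
  exact Pr_congr fun ω _ => h.CI_iff hRA hX hY hT e1 e2 ω

/-- The two-sided bound at a flat vertex, eventually. -/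
lemma lv_ev {ε : ℝ} {K : ℕ} {a : ℕ → ℝ}
    (ha : ∀ j : ℕ, 1 ≤ j → 0 < a j ∧ ∀ (S : Pool.Agent.H75.Perc.Sy) (E W : Finset (ℤ × ℤ))
      (J : ℤ × ℤ → Prop), Flat S E W (K * j) → (∀ v, J v → ¬ VI S (K * j) v) →
      a j * Pr E (CS W J (IS S (4 * j))) ≤ Pr E (CJ W J (S.g (0, 0))) ∧
      Pr E (CJ W J (S.g (0, 0))) ≤ (1 + ε) * (a j * Pr E (CS W J (IS S (4 * j)))))
    {P : PType} {x y : ℤ → ℝ} (hx : StrictMono x) (hy : StrictMono y) {n : ℕ} (hn : FlatV P n) :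
    ∃ s0 : ℝ, 0 < s0 ∧ ∀ s : ℝ, 0 < s → s < s0 → ∀ (R : ℕ → ℝ) (X Y : ℕ → ℤ → ℤ),
      App x y R X Y → ∀ᶠ j in atTop, 1 ≤ ⌊s * R j⌋₊ ∧
        a ⌊s * R j⌋₊ * PI P (X j) (Y j) n (4 * (⌊s * R j⌋₊ : ℕ)) ≤
          hh P (X j) (Y j) (lv P (X j) (Y j) n) ∧
        hh P (X j) (Y j) (lv P (X j) (Y j) n) ≤
          (1 + ε) * (a ⌊s * R j⌋₊ * PI P (X j) (Y j) n (4 * (⌊s * R j⌋₊ : ℕ))) := by
  obtain ⟨c0, hc0, hs⟩ := small_ev hx hy (P.vert n)
  refine ⟨c0 / (K + 1), by positivity, fun s hs0 hs1 R X Y hA => ?_⟩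
  filter_upwards [hs R X Y hA.app, hA.mono, hA.app.R_top.eventually_ge_atTop (1 / s),
    hA.app.R_top.eventually_gt_atTop 0] with j h1 h2 h3 h4
  rw [div_le_iff₀ hs0] at h3
  have hsR : 0 ≤ s * R j := by positivity
  have f1 : ((⌊s * R j⌋₊ : ℕ) : ℝ) ≤ s * R j := Nat.floor_le hsR
  have f2 : 1 ≤ ⌊s * R j⌋₊ := Nat.le_floor (by push_cast; linarith)
  set m : ℕ := ⌊s * R j⌋₊ with hm
  have hKm : ((K * m : ℤ) : ℝ) ≤ c0 * R j := by
    push_cast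
    have e1 : (K : ℝ) * m ≤ K * (s * R j) := mul_le_mul_of_nonneg_left f1 (by positivity)
    have e2 : (K : ℝ) * s ≤ c0 := by
      rw [lt_div_iff₀ (by positivity)] at hs1
      nlinarith
    calc (K : ℝ) * m ≤ K * (s * R j) := e1
      _ = (K * s) * R j := by ring
      _ ≤ c0 * R j := mul_le_mul_of_nonneg_right e2 h4.le
  have hS : Small (X j) (Y j) (P.vert n) (K * m : ℤ) := h1 _ hKm
  have hF := flat_EL h2.1 h2.2 hn (by positivity) hS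
  have hT := TV_out h2.1 h2.2 hn hS
  obtain ⟨g0, g⟩ := ha m f2
  obtain ⟨g1, g2⟩ := g (Sd (P.side n).2 (lv P (X j) (Y j) n)) _ _ _ hF hT
  rw [Sd_g, ← PI_eq] at g1 g2
  exact ⟨f2, g1, g2⟩

/-- `PI` is at least `hh`. -/
lemma hh_le_PI (P : PType) (X Y : ℤ → ℤ) (n : ℕ) {L : ℤ} (hL : 0 ≤ L) :
    hh P X Y (lv P X Y n) ≤ PI P X Y n L := by
  unfold hh PI
  apply Pool.Agent.H75.Perc.Pr_mono
  intro ω _ h
  exact ⟨0, by simpa using hL, by simpa using h⟩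

theorem stRL : StRL := by
  intro ε0 hε0 P P' x y x' y' hx hy hx' hy' n n' hn hn'
  -- a smaller `ε`
  set ε : ℝ := min ε0 1 with hεd
  have hε : 0 < ε := lt_min hε0 one_pos
  obtain ⟨K, -, hK⟩ := lv_ratio ε hε
  choose! a ha using hK
  have ha' : ∀ j : ℕ, 1 ≤ j → 0 < a j ∧ ∀ (S : Pool.Agent.H75.Perc.Sy) (E W : Finset (ℤ × ℤ))
      (J : ℤ × ℤ → Prop), Flat S E W (K * j) → (∀ v, J v → ¬ VI S (K * j) v) →
      a j * Pr E (CS W J (IS S (4 * j))) ≤ Pr E (CJ W J (S.g (0, 0))) ∧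
      Pr E (CJ W J (S.g (0, 0))) ≤ (1 + ε) * (a j * Pr E (CS W J (IS S (4 * j)))) :=
    fun j hj => ha j hj
  obtain ⟨s1, hs1, H1⟩ := lv_ev ha' hx hy hn
  obtain ⟨s2, hs2, H2⟩ := lv_ev ha' hx' hy' hn'
  obtain ⟨c1, hc1, hlow⟩ := Pool.Agent.H52.Q1.hh_lower P hx hy hn
  obtain ⟨c2, hc2, hlow'⟩ := Pool.Agent.H52.Q1.hh_lower P' hx' hy' hn'
  refine ⟨4 * min s1 s2, by have := lt_min hs1 hs2; linarith, fun s hs0 hs => ?_⟩
  intro R X Y X' Y' hA hA'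
  refine ⟨fun j => 4 * ((⌊s / 4 * R j⌋₊ : ℕ) : ℤ), ?_, ?_⟩
  · have h1 : Tendsto (fun j => ((⌊s / 4 * R j⌋₊ : ℕ) : ℝ) / R j) atTop (𝓝 (s / 4)) := by
      have := (tendsto_nat_floor_mul_div_atTop (R := ℝ) (a := s / 4) (by positivity)).comp
        hA.app.R_top
      exact this
    have h2 := h1.const_mul 4
    rw [show 4 * (s / 4) = s by ring] at h2
    refine h2.congr fun j => ?_
    push_cast
    ring
  have hs4 : s / 4 < min s1 s2 := by linarith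
  filter_upwards [H1 (s / 4) (by positivity) (hs4.trans_le (min_le_left _ _)) R X Y hA,
    H2 (s / 4) (by positivity) (hs4.trans_le (min_le_right _ _)) R X' Y' hA',
    hlow R X Y hA, hlow' R X' Y' hA', hA.app.R_top.eventually_gt_atTop 0] with j g1 g2 l1 l2 hR
  have hR3 : 0 < R j ^ (-(1 / 3) : ℝ) := Real.rpow_pos_of_pos hR _
  set m := ⌊s / 4 * R j⌋₊ with hm
  have hq : 0 < hh P (X j) (Y j) (lv P (X j) (Y j) n) := lt_of_lt_of_le (by positivity) l1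
  have hq' : 0 < hh P' (X' j) (Y' j) (lv P' (X' j) (Y' j) n') := lt_of_lt_of_le (by positivity) l2
  have hp : 0 < PI P (X j) (Y j) n (4 * (m : ℕ)) :=
    hq.trans_le (hh_le_PI P _ _ n (by positivity))
  have hp' : 0 < PI P' (X' j) (Y' j) n' (4 * (m : ℕ)) :=
    hq'.trans_le (hh_le_PI P' _ _ n' (by positivity))
  obtain ⟨m1, b1, b2⟩ := g1
  obtain ⟨-, b3, b4⟩ := g2
  have ham : 0 < a m := (ha' m m1).1
  generalize hh P (X j) (Y j) (lv P (X j) (Y j) n) = q at *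
  generalize hh P' (X' j) (Y' j) (lv P' (X' j) (Y' j) n') = q' at *
  generalize PI P (X j) (Y j) n (4 * (m : ℕ)) = p at *
  generalize PI P' (X' j) (Y' j) n' (4 * (m : ℕ)) = p' at *
  -- the two conditional probabilities are in `[a, (1 + ε) a]`
  have u1 : a m ≤ q / p := by rw [le_div_iff₀ hp]; exact b1
  have u2 : q / p ≤ (1 + ε) * a m := by rw [div_le_iff₀ hp, mul_assoc]; exact b2
  have u3 : a m ≤ q' / p' := by rw [le_div_iff₀ hp']; exact b3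
  have u4 : q' / p' ≤ (1 + ε) * a m := by rw [div_le_iff₀ hp', mul_assoc]; exact b4
  have hu : 0 < q' / p' := by positivity
  have hεle : ε ≤ ε0 := min_le_left _ _
  rw [abs_le]
  constructor
  · have : 1 - ε ≤ q / p / (q' / p') := by
      rw [le_div_iff₀ hu]
      nlinarith
    linarith
  · have : q / p / (q' / p') ≤ 1 + ε := by
      rw [div_le_iff₀ hu]
      nlinarith
    linarith

end Pool.Agent.H53.W
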